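import Pool.Agent.Helper47.LC.T1
import Pool.Agent.Helper26.Maz.Defs

/-!
# MAZ-T1: the boundary of the manifold corresponds to the boundary complex (general form)
-/

set_option autoImplicit false

namespace Pool.Agent.Helper26.Maz

open Pool.Agent.Helper26.LC

theorem boundary_eq_gen {W : Type*} [TopologicalSpace W] [T2Space W]
    {V : Type*} [DecidableEq V] [Fintype V] (D : Set W) (_hD : IsClosed D)
    (h1 : ∀ w ∉ D, ∃ (N : Set W) (U : Set (EuclideanSpace ℝ (Fin 4))), IsOpen N ∧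
      w ∈ N ∧ IsOpen U ∧ Nonempty (N ≃ₜ U))
    (h2 : ∃ D₀ : Set W, D₀ ⊆ D ∧ D ⊆ closure D₀ ∧ ∀ w ∈ D₀, HalfPt D w)
    (F : Finset (Finset V)) (hcard : ∀ σ ∈ F, σ.card = 5)
    (hPM : ∀ τ : Finset V, τ.card = 4 → ∀ σ₁ ∈ F, ∀ σ₂ ∈ F, ∀ σ₃ ∈ F, τ ⊆ σ₁ → τ ⊆ σ₂ → τ ⊆ σ₃ →
      σ₁ = σ₂ ∨ σ₁ = σ₃ ∨ σ₂ = σ₃)
    (h : Space F ≃ₜ W) (p : Space F) :
    (p : V → ℝ) ∈ Space (bd 4 F) ↔ h p ∈ D := by
  constructor
  · intro hp
    by_contra hD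
    obtain ⟨N, U, hN, hw, hU, hNU⟩ := h1 _ hD
    have hI : TypeI (h p) := ⟨N, hN, hw, U, hU, hNU⟩
    have h3 := hI.map h.symm
    rw [Homeomorph.symm_apply_apply] at h3
    exact not_typeI_bd no_half F hcard p hp h3
  · intro hb
    by_contra hp
    obtain ⟨D₀, hD₀, hcl, hhalf⟩ := h2
    have hC : IsOpen ({q : Space F | (q : V → ℝ) ∈ Space (bd 4 F)}ᶜ) :=
      (isClosed_space F (bd 4 F)).isOpen_compl
    have hC' : IsOpen (h '' {q : Space F | (q : V → ℝ) ∈ Space (bd 4 F)}ᶜ) := h.isOpenMap _ hC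
    obtain ⟨w, hwC, hw⟩ := mem_closure_iff.1 (hcl hb) _ hC' ⟨p, hp, rfl⟩
    obtain ⟨q, hq, rfl⟩ := hwC
    obtain ⟨N, U, e, hN, hqN, hU, he⟩ := hhalf _ hw
    have hB : TypeB (h q) := ⟨N, hqN, hN, U, hU, e, (he ⟨h q, hqN⟩).1 (hD₀ hw)⟩
    have h3 := hB.map h.symm
    rw [Homeomorph.symm_apply_apply] at h3
    exact not_typeB no_half no_inj F hcard hPM q hq h3

end Pool.Agent.Helper26.Maz
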